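import Pool.Agent.Helper96.SE.Stmts

set_option autoImplicit false

/-! Module FRP: the parties in the clique-colouring formula. -/

namespace Pool.Agent.Helper96.SE

open Pool.Agent.Helper31.BC (PCl chs chf inn sel col vr)
open Pool.Agent.Helper38.MR (Edge Graph clq mpt trv)
open Pool.Agent.Helper52.Grid

theorem frp_fstA (k q l : ℕ) (In In' : ℕ → Bool) (se se' : ℕ → ℕ) :
    (pA k q l In se).map Prod.fst = (pA k q l In' se').map Prod.fst := by
  simp only [pA, List.map_append, List.map_map, List.map_flatMap, apply_ite (List.map Prod.fst),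
    List.map_cons, List.map_nil, Function.comp_def]

theorem frp_memA {k q l : ℕ} {In : ℕ → Bool} {se : ℕ → ℕ} {x : List (ℕ × Bool) × ℕ}
    (hx : x ∈ pA k q l In se) :
    (∃ i, i < k ∧ x = ((List.range q).map fun j => (j + q * i, true), se i)) ∨
    ∃ u v, u < k * q ∧ v < k * q ∧ u < v ∧
      x = ([(u, false), (v, false), (xr (k * q) l u v, true)],
        if In u = false then 0 else if In v = false then 1 else 2) := by
  rw [pA, List.mem_append] at hx
  rcases hx with hx | hx
  · obtain ⟨i, hi, rfl⟩ := List.mem_map.mp hx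
    exact Or.inl ⟨i, List.mem_range.mp hi, rfl⟩
  · obtain ⟨u, hu, hx⟩ := List.mem_flatMap.mp hx
    obtain ⟨v, hv, hx⟩ := List.mem_flatMap.mp hx
    by_cases huv : u < v
    · rw [if_pos huv, List.mem_singleton] at hx
      exact Or.inr ⟨u, v, List.mem_range.mp hu, List.mem_range.mp hv, huv, hx⟩
    · rw [if_neg huv] at hx
      simp at hx

theorem frp_memB {m l : ℕ} {c : ℕ → ℕ} {x : List (ℕ × Bool) × ℕ} (hx : x ∈ pB m l c) :
    (∃ v, v < m ∧ x = ((List.range l).map fun c => (vr m l v c, true), c v)) ∨
    ∃ u v d, u < m ∧ v < m ∧ d < l ∧ u < v ∧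
      x = ([(vr m l u d, false), (vr m l v d, false), (wr m l u v, true)],
        if c u ≠ d then 0 else if c v ≠ d then 1 else 2) := by
  rw [pB, List.mem_append] at hx
  rcases hx with hx | hx
  · obtain ⟨i, hi, rfl⟩ := List.mem_map.mp hx
    exact Or.inl ⟨i, List.mem_range.mp hi, rfl⟩
  · obtain ⟨u, hu, hx⟩ := List.mem_flatMap.mp hx
    obtain ⟨v, hv, hx⟩ := List.mem_flatMap.mp hx
    obtain ⟨d, hd, hx⟩ := List.mem_flatMap.mp hx
    by_cases huv : u < v
    · rw [if_pos huv, List.mem_singleton] at hx
      exact Or.inr ⟨u, v, d, List.mem_range.mp hu, List.mem_range.mp hv, List.mem_range.mp hd,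
        huv, hx⟩
    · rw [if_neg huv] at hx
      simp at hx

theorem frp_len (pc : PCl) :
    (chs pc).length = ((pc.map Prod.fst).map fun c => 1 + 2 * c.length).sum := by
  induction pc with
  | nil => rfl
  | cons x pc ih =>
    have h1 : chs (x :: pc) = (false :: x.1.zipIdx.flatMap fun y =>
        [decide (y.2 = x.2) && y.1.2, decide (y.2 = x.2) && !y.1.2]) ++ chs pc := by
      simp [chs]
    have h2 : ∀ (L : List ((ℕ × Bool) × ℕ)) (n : ℕ), (L.flatMap fun y =>
        [decide (y.2 = n) && y.1.2, decide (y.2 = n) && !y.1.2]).length = 2 * L.length := by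
      intro L n
      induction L with
      | nil => rfl
      | cons a L ih =>
        rw [List.flatMap_cons, List.length_append, ih]
        simp
        ring
    rw [h1, List.length_append, ih, List.length_cons, h2, List.length_zipIdx]
    simp
    ring

theorem frp_slen (φ : CNF) : (subs φ).length = (φ.map fun c => 1 + 2 * c.length).sum := by
  induction φ with
  | nil => rfl
  | cons c φ ih =>
    have h1 : subs (c :: φ) = clSubs c ++ subs φ := by simp [subs]
    have h2 : ∀ (L : List (ℕ × Bool)), (L.flatMap fun l =>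
        ([some (l.1, l.2), some (l.1, !l.2)] : List Sub)).length = 2 * L.length := by
      intro L
      induction L with
      | nil => rfl
      | cons a L ih =>
        rw [List.flatMap_cons, List.length_append, ih]
        simp
        ring
    rw [h1, List.length_append, ih, clSubs, List.length_cons, h2]
    simp
    ring

theorem frp_chs_append (A B : PCl) : chs (A ++ B) = chs A ++ chs B := by
  simp [chs]

theorem frp_subs_append (A B : CNF) : subs (A ++ B) = subs A ++ subs B := by
  simp [subs]

theorem frp_sg {φ : CNF} {j i : ℕ} {d : Bool} (h : sg (subs φ) j = some (i, d)) :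
    ∃ c ∈ φ, ∃ y ∈ c, y.1 = i := by
  have h1 : (some (i, d) : Sub) ∈ subs φ := by
    rcases lt_or_ge j (subs φ).length with hj | hj
    · rw [sg, List.getD_eq_getElem _ _ hj] at h
      rw [← h]
      exact List.getElem_mem hj
    · rw [sg, List.getD_eq_default _ _ hj] at h
      cases h
  obtain ⟨c, hc, h2⟩ := List.mem_flatMap.mp h1
  refine ⟨c, hc, ?_⟩
  rw [clSubs, List.mem_cons] at h2
  rcases h2 with h2 | h2
  · cases h2
  · obtain ⟨y, hy, h3⟩ := List.mem_flatMap.mp h2
    refine ⟨y, hy, ?_⟩
    simp only [List.mem_cons, List.not_mem_nil, or_false, Option.some.injEq, Prod.mk.injEq] at h3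
    rcases h3 with h3 | h3
    · exact h3.1.symm
    · exact h3.1.symm

theorem frp_prA {k q l : ℕ} {x : List (ℕ × Bool) × ℕ} {In : ℕ → Bool} {se : ℕ → ℕ}
    (hx : x ∈ pA k q l In se) {y : ℕ × Bool} (hy : y ∈ x.1) : prw (k * q) l y.1 = true := by
  have key : ∀ i, i < k * q → prw (k * q) l i = true := by
    intro i hi
    simp [prw, hi]
  rcases frp_memA hx with ⟨i, hi, rfl⟩ | ⟨u, v, hu, hv, -, rfl⟩
  · obtain ⟨j, hj, rfl⟩ := List.mem_map.mp hy
    have hj := List.mem_range.mp hj
    have h1 : (i + 1) * q ≤ k * q := Nat.mul_le_mul_right q hi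
    have h2 : (i + 1) * q = q * i + q := by ring
    apply key
    show j + q * i < k * q
    omega
  · simp only [List.mem_cons, List.not_mem_nil, or_false] at hy
    rcases hy with rfl | rfl | rfl
    · exact key _ hu
    · exact key _ hv
    · have h1 : k * q + k * q * l ≤ xr (k * q) l u v := by
        unfold xr
        omega
      have h2 : (xr (k * q) l u v - (k * q + k * q * l)) % 2 = 1 := by
        unfold xr
        omega
      show prw (k * q) l (xr (k * q) l u v) = true
      rw [prw, decide_eq_true h1, decide_eq_true h2, Bool.and_self, Bool.or_true]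

theorem frp_prB {m l : ℕ} {x : List (ℕ × Bool) × ℕ} {c : ℕ → ℕ}
    (hx : x ∈ pB m l c) {y : ℕ × Bool} (hy : y ∈ x.1) : prw m l y.1 = false := by
  have key : ∀ v d, v < m → d < l → prw m l (vr m l v d) = false := by
    intro v d hv hd
    have h0 : (v + 1) * l ≤ m * l := Nat.mul_le_mul_right l hv
    have h2 : (v + 1) * l = v * l + l := by ring
    have h3 : ¬ vr m l v d < m := by
      unfold vr
      omega
    have h4 : ¬ m + m * l ≤ vr m l v d := by
      unfold vr
      omega
    rw [prw, decide_eq_false h3, decide_eq_false h4, Bool.false_and, Bool.or_false]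
  rcases frp_memB hx with ⟨v, hv, rfl⟩ | ⟨u, v, d, hu, hv, hd, -, rfl⟩
  · obtain ⟨j, hj, rfl⟩ := List.mem_map.mp hy
    exact key _ _ hv (List.mem_range.mp hj)
  · simp only [List.mem_cons, List.not_mem_nil, or_false] at hy
    rcases hy with rfl | rfl | rfl
    · exact key _ _ hu hd
    · exact key _ _ hv hd
    · have h1 : ¬ wr m l u v < m := by
        unfold wr
        omega
      have h2 : ¬ (wr m l u v - (m + m * l)) % 2 = 1 := by
        unfold wr
        omega
      show prw m l (wr m l u v) = false
      rw [prw, decide_eq_false h1, decide_eq_false h2, Bool.and_false, Bool.or_false]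

theorem st_FRP : ST_FRP := by
  intro k q l σ σ' χ χ'
  have hA : ∀ σ' : Fin k → Fin q, (pA k q l (inn σ') (sel σ')).map Prod.fst =
      (pA k q l (fun _ => false) (fun _ => 0)).map Prod.fst := fun σ' => frp_fstA _ _ _ _ _ _ _
  have hlen : ∀ σ' : Fin k → Fin q, (chs (pA k q l (inn σ') (sel σ'))).length =
      (chs (pA k q l (fun _ => false) (fun _ => 0))).length := by
    intro σ'
    rw [frp_len, frp_len, hA]
  refine ⟨?_, ?_, ?_, ?_, ?_⟩
  · intro i hi
    unfold asg
    by_cases h1 : i < k * q
    · rw [if_pos h1, if_pos h1]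
    · rw [prw, decide_eq_false h1, Bool.false_or, Bool.and_eq_true, decide_eq_true_iff,
        decide_eq_true_iff] at hi
      have h2 : ¬ i < k * q + k * q * l := not_lt.mpr hi.1
      have h3 : ¬ (i - (k * q + k * q * l)) % 2 = 0 := by omega
      simp only [if_neg h1, if_neg h2, if_neg h3]
  · intro i hi
    unfold asg
    by_cases h1 : i < k * q
    · rw [prw, decide_eq_true h1, Bool.true_or] at hi
      cases hi
    · by_cases h2 : i < k * q + k * q * l
      · simp only [if_neg h1, if_pos h2]
      · rw [prw, decide_eq_false h1, Bool.false_or, decide_eq_true (not_lt.mp h2),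
          Bool.true_and, decide_eq_false_iff_not] at hi
        have h3 : (i - (k * q + k * q * l)) % 2 = 0 := by omega
        simp only [if_neg h1, if_neg h2, if_pos h3]
  · intro j hj
    rw [pco, decide_eq_true_iff] at hj
    have hj' : j < (chs (pA k q l (inn σ) (sel σ))).length := by rw [hlen]; exact hj
    simp only [chf, pcc, frp_chs_append, List.getD_append _ _ _ _ hj']
  · intro j hj
    rw [pco, decide_eq_false_iff_not, not_lt] at hj
    have hj1 : (chs (pA k q l (inn σ) (sel σ))).length ≤ j := by rw [hlen]; exact hj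
    have hj2 : (chs (pA k q l (inn σ') (sel σ'))).length ≤ j := by rw [hlen]; exact hj
    simp only [chf, pcc, frp_chs_append, List.getD_append_right _ _ _ _ hj1,
      List.getD_append_right _ _ _ _ hj2, hlen]
  · intro j i d hj
    have hl : (subs ((pA k q l (fun _ => false) (fun _ => 0)).map Prod.fst)).length =
        (chs (pA k q l (fun _ => false) (fun _ => 0))).length := by
      rw [frp_slen, frp_len]
    rw [ccF, frp_subs_append] at hj
    by_cases h : j < (chs (pA k q l (fun _ => false) (fun _ => 0))).length
    · have h1 : sg (subs ((pA k q l (fun _ => false) (fun _ => 0)).map Prod.fst)) j =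
          some (i, d) := by
        rw [← hj, sg, sg, List.getD_append _ _ _ _ (by rw [hl]; exact h)]
      obtain ⟨c, hc, y, hy, rfl⟩ := frp_sg h1
      obtain ⟨x, hx, rfl⟩ := List.mem_map.mp hc
      rw [frp_prA hx hy, pco, decide_eq_true h]
    · have h1 : sg (subs ((pB (k * q) l (fun _ => 0)).map Prod.fst))
          (j - (chs (pA k q l (fun _ => false) (fun _ => 0))).length) = some (i, d) := by
        rw [← hj, sg, sg, List.getD_append_right _ _ _ _ (by rw [hl]; exact not_lt.mp h), hl]
      obtain ⟨c, hc, y, hy, rfl⟩ := frp_sg h1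
      obtain ⟨x, hx, rfl⟩ := List.mem_map.mp hc
      rw [frp_prB hx hy, pco, decide_eq_false h]

end Pool.Agent.Helper96.SE
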